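import Mathlib
import Pool.Agent.Y90.G.Stm2
import Pool.Agent.Y90.E3
import Pool.Agent.Y90.Cond

/-!
# Elements which kill or fix all invariant forms

`JLieMem` and `JGrpMem` of `Pool.Agent.Y90.G.Stm2`.
-/

set_option linter.unusedSectionVars false

namespace Pool.Agent.Y153.GV

open Matrix Module Pool.Agent.W437.HC Pool.Agent.W437.HD Pool.Agent.W548.Odd
open Pool.Agent.Y90 Pool.Agent.Y90.G
open Pool.Agent.H204R3.SP (Kills bil2 IsTate)
open Pool.Agent.W522.U (exists_reps exists_st Du)

noncomputable section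

variable {G : ℕ} {Z : Matrix (Fin G) (Fin G) ℂ}

/-- Invariant forms are invariant under the group. -/
theorem inv_of_InvF {κ : Type} [Fintype κ] [DecidableEq κ] {F : MV G κ}
    (hF : InvF Z F) (g : Gam (GG (LZ Z))) (v : κ → Fin G ⊕ Fin G → ℂ) :
    F (fun k => RZ Z g (v k)) = F v := by
  refine inv_gam _ (fun D hD _ => ?_) g v
  obtain ⟨X, hX, rfl⟩ := exists_GG hD
  intro v
  have h1 := congrArg (fun F : MV G κ => F v) (hF X hX)
  simp only [ac_apply] at h1
  exact h1

/-- The common lemma: invariant forms belong to each system of forms which contains the invariant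
bilinear forms and the determinants of the irreducible submodules which are not self-dual. -/
theorem inv_memH (H : Hyp Z)
    (N : ∀ (κ : Type) [Finite κ], Submodule ℂ (MultilinearMap ℂ (fun _ : κ => Fin G ⊕ Fin G → ℂ) ℂ))
    (hN : Clo N)
    (hpair : ∀ b : (Fin G ⊕ Fin G → ℂ) →ₗ[ℂ] (Fin G ⊕ Fin G → ℂ) →ₗ[ℂ] ℂ,
      (∀ X ∈ LZ Z, ∀ u v, b (X *ᵥ u) v + b u (X *ᵥ v) = 0) → bil2 b ∈ N (Fin 2))
    (hdet : ∀ (U : Submodule ℂ (Fin G ⊕ Fin G → ℂ)) (_ : IrS (LZ Z) U) (_ : ¬SDu Z U) (ι : Type)
      [Fintype ι] [DecidableEq ι] (f : Basis ι ℂ U) (Q : ι → (Fin G ⊕ Fin G → ℂ) →ₗ[ℂ] U),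
      (∀ y, ∀ X ∈ LZ Z, ∀ x, (Q y (X *ᵥ x) : Fin G ⊕ Fin G → ℂ) =
        X *ᵥ (Q y x : Fin G ⊕ Fin G → ℂ)) →
      f.det.toMultilinearMap.compLinearMap Q ∈ N ι)
    {κ : Type} [Fintype κ] [DecidableEq κ] (F : MV G κ) (hF : InvF Z F) : F ∈ N κ := by
  classical
  have h := H.pm
  have hSI : ∀ {U}, W522.U.SI (RZ Z) U ↔ IrS (LZ Z) U := fun {U} => si_iff h.genI
  have key : ∀ (n : ℕ) (φ : MultilinearMap ℂ (fun _ : Fin n × Fin 2 => Fin G ⊕ Fin G → ℂ) ℂ),
      (∀ (g : Gam (GG (LZ Z))) v, φ (fun k => RZ Z g (v k)) = φ v) → φ ∈ N (Fin n × Fin 2) := by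
    intro n φ hφ
    obtain ⟨s, W, hW, hWW, hall⟩ := exists_reps (rz_proj h)
    obtain ⟨st, hst, hDu, hDu'⟩ :=
      exists_st (χ := 1) (rz_proj h) (om G) om_nd (rz_om h) W hW hWW hall
    refine forms_mem3 (χ := 1) (fun Δ hΔ => fi_top Δ hΔ) (om G) om_nd (rz_om h) ?_ ?_ ?_
      (rz_proj h) W hW hWW hall st hst hDu hDu' N hN ?_ ?_ φ ?_
    · intro U hU hn
      exact rz_unip h (H.rk U (hSI.1 hU) hn).1
    · intro U hU hn
      exact rz_line h (hSI.1 hU) hn
    · intro U U' hU hU' hn _ ψ hT
      exact rz_twist h (hSI.1 hU) (hSI.1 hU') (H.rk U (hSI.1 hU) hn).2 ψ hT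
    · intro b hb
      refine hpair b fun X hX u v => ?_
      exact (rz_bil h stab_top stab_top b).1 (fun g u _ v _ => by
        rw [hb, MonoidHom.one_apply, one_mul]) X hX u trivial v trivial
    · intro a ha hag ι _ _ f Q hQ ψ hψ
      have hI : ∀ i, IrS (LZ Z) (W i) := fun i => hSI.1 (hW i)
      refine hN.fam_prod ι (fun q => (f q).det.toMultilinearMap.compLinearMap (Q q)) (fun q => ?_)
        (Equiv.refl _) ψ (fun v => hψ v)
      refine hdet (W q.1) (hI q.1) (fun hsd => ?_) (ι q) (f q) (Q q) (fun y X hX x => ?_)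
      · have h2 := hDu' q.1 q.1 ((rz_du h (hI q.1).2.1 (hI q.1).2.1).2 hsd)
        have h3 := ha q.1
        rw [← h2] at h3
        have h4 : a q.1 = 0 := by omega
        have h5 := q.2.2
        have h6 : (a q.1).toNat = 0 := by rw [h4]; rfl
        exact absurd (lt_of_lt_of_eq h5 h6) (Nat.not_lt_zero _)
      · exact (rz_equiv h stab_top ((W q.1).subtype.comp (Q q y))).1
          (fun g u _ => hQ q y g u) X hX x trivial
    · refine ⟨⊤, inferInstance, fun g _ v => ?_⟩
      rw [MonoidHom.one_apply, one_pow, one_mul]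
      exact hφ g v
  have hinv := inv_of_InvF hF
  rcases Nat.even_or_odd (Fintype.card κ) with he | ho
  · obtain ⟨n, hn⟩ := he
    have e : κ ≃ Fin n × Fin 2 := Fintype.equivOfCardEq (by
      rw [Fintype.card_prod, Fintype.card_fin, Fintype.card_fin, hn]
      ring)
    have h1 := key n (F.domDomCongr e) (fun g v => by
      rw [MultilinearMap.domDomCongr_apply, MultilinearMap.domDomCongr_apply]
      exact hinv g _)
    exact hN.reindex e.symm h1 F fun v => by
      rw [MultilinearMap.domDomCongr_apply]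
      congr 1
      funext k
      simp
  · have h0 : F = 0 := by
      refine MultilinearMap.ext fun v => ?_
      have h1 := hinv (gt (D := ph _ (DZ Z)) (by rw [← map_mul, DZ_sq h.det, map_one])
        (mem_GG.2 DZ_mem) (-1)) v
      have h2 : (fun k => RZ Z (gt (D := ph _ (DZ Z)) (by rw [← map_mul, DZ_sq h.det, map_one])
        (mem_GG.2 DZ_mem) (-1)) (v k)) = fun k => (-1 : ℂ) • v k := by
        funext k
        change torE (ph _ (DZ Z)) (-1) (v k) = _
        rw [torE_apply]
        simp only [Units.val_neg, Units.val_one, inv_neg, inv_one]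
        module
      rw [h2, MultilinearMap.map_smul_univ, Finset.prod_const, Finset.card_univ,
        Odd.neg_one_pow ho, neg_one_smul] at h1
      have h3 : F v = 0 := by linear_combination (-1 / 2 : ℂ) * h1
      rw [h3]
      rfl
    rw [h0]
    exact Submodule.zero_mem _

/-- Invariant bilinear forms are `om (S u) v` with `S` equivariant. -/
theorem exists_S (h : PM Z) (b : (Fin G ⊕ Fin G → ℂ) →ₗ[ℂ] (Fin G ⊕ Fin G → ℂ) →ₗ[ℂ] ℂ)
    (hb : ∀ X ∈ LZ Z, ∀ u v, b (X *ᵥ u) v + b u (X *ᵥ v) = 0) :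
    ∃ S : (Fin G ⊕ Fin G → ℂ) →ₗ[ℂ] (Fin G ⊕ Fin G → ℂ), (∀ u v, b u v = om G (S u) v) ∧
      ∀ Y ∈ LZ Z, ∀ v, S (Y *ᵥ v) = Y *ᵥ S v := by
  have hinj : Function.Injective (om G) := by
    rw [← LinearMap.ker_eq_bot, LinearMap.ker_eq_bot']
    intro u hu
    exact om_nd u fun v => by rw [hu, LinearMap.zero_apply]
  have hdim : finrank ℂ (Fin G ⊕ Fin G → ℂ) = finrank ℂ ((Fin G ⊕ Fin G → ℂ) →ₗ[ℂ] ℂ) :=
    (Subspace.dual_finrank_eq (K := ℂ) (V := Fin G ⊕ Fin G → ℂ)).symm
  let E : (Fin G ⊕ Fin G → ℂ) ≃ₗ[ℂ] ((Fin G ⊕ Fin G → ℂ) →ₗ[ℂ] ℂ) :=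
    LinearEquiv.ofInjectiveOfFinrankEq (om G) hinj hdim
  have hE : ∀ u, E u = om G u := fun u => rfl
  have hS : ∀ u v, b u v = om G ((E.symm.toLinearMap ∘ₗ b) u) v := by
    intro u v
    rw [← hE]
    simp
  refine ⟨E.symm.toLinearMap ∘ₗ b, hS, fun Y hY v => ?_⟩
  refine hinj (LinearMap.ext fun w => ?_)
  rw [← hS, ← sub_eq_zero]
  have h1 := hb Y hY v w
  have h2 := h.om_sp hY ((E.symm.toLinearMap ∘ₗ b) v) w
  rw [← hS] at h2
  linear_combination h1 - h2

/-- Elements of `ComE` preserve the irreducible submodules. -/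
theorem com_stab (h : PM Z) {X : (Fin G ⊕ Fin G → ℂ) →ₗ[ℂ] (Fin G ⊕ Fin G → ℂ)} (hX : ComE Z X)
    {U : Submodule ℂ (Fin G ⊕ Fin G → ℂ)} (hU : Stab (LZ Z) U) : ∀ u ∈ U, X u ∈ U := by
  obtain ⟨π, h1, h2, h3⟩ := h.cred U hU
  intro u hu
  have h4 := hX π (fun Y hY v => h1 Y hY v) u
  rw [h3 u hu] at h4
  rw [← h4]
  exact h2 _

/-- The derivative of a determinant. -/
theorem sum_det_update {ι : Type} [Fintype ι] [DecidableEq ι] {U : Type*} [AddCommGroup U]
    [Module ℂ U] (f : Basis ι ℂ U) (A : U →ₗ[ℂ] U) (w : ι → U) :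
    ∑ y, f.det (Function.update w y (A (w y))) = LinearMap.trace ℂ U A * f.det w := by
  set M := f.toMatrix w with hM
  set A' := LinearMap.toMatrix f f A with hA'
  have h1 : ∀ y, f.det (Function.update w y (A (w y))) = (M.adjugate * (A' * M)) y y := by
    intro y
    rw [Basis.det_apply, Basis.toMatrix_update, ← hM, ← Matrix.cramer_apply,
      Matrix.cramer_eq_adjugate_mulVec]
    have h2 : (f.repr (A (w y)) : ι → ℂ) = fun i => (A' * M) i y := by
      have h3 := LinearMap.toMatrix_mulVec_repr f f A (w y)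
      rw [← h3]
      rfl
    rw [h2]
    rfl
  rw [Finset.sum_congr rfl fun y _ => h1 y]
  change Matrix.trace (M.adjugate * (A' * M)) = _
  rw [Matrix.trace_mul_comm, Matrix.mul_assoc, Matrix.mul_adjugate, Matrix.mul_smul,
    Matrix.mul_one, Matrix.trace_smul, smul_eq_mul, LinearMap.trace_eq_matrix_trace ℂ f A,
    Basis.det_apply, mul_comm]

section sys

variable (X : (Fin G ⊕ Fin G → ℂ) →ₗ[ℂ] (Fin G ⊕ Fin G → ℂ))

/-- The forms killed by `X`. -/
def NLie : ∀ (κ : Type) [Finite κ],
    Submodule ℂ (MultilinearMap ℂ (fun _ : κ => Fin G ⊕ Fin G → ℂ) ℂ) := fun κ _ =>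
  { carrier := {F | ∀ (i1 : Fintype κ) (i2 : DecidableEq κ), ac X F = 0}
    add_mem' := fun hF hF' i1 i2 => by rw [map_add, hF, hF', add_zero]
    zero_mem' := fun i1 i2 => map_zero _
    smul_mem' := fun c F hF i1 i2 => by rw [map_smul, hF, smul_zero] }

theorem clo_NLie : Clo (NLie X) := by
  classical
  constructor
  · intro κ _ _ F i1 i2
    refine MultilinearMap.ext fun v => ?_
    rw [ac_apply, Finset.univ_eq_empty, Finset.sum_empty]
    rfl
  · intro κ κ' κ'' _ _ _ e F F' ψ hF hF' hψ i1 i2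
    let _ : Fintype κ := Fintype.ofFinite κ
    let _ : Fintype κ' := Fintype.ofFinite κ'
    have h1 := hF inferInstance inferInstance
    have h2 := hF' inferInstance inferInstance
    refine MultilinearMap.ext fun v => ?_
    have h3 := congrArg (fun T : MV G κ => T (fun k => v (e (Sum.inl k)))) h1
    have h4 := congrArg (fun T : MV G κ' => T (fun k => v (e (Sum.inr k)))) h2
    simp only [ac_apply] at h3 h4
    rw [ac_apply, ← e.sum_comp, Fintype.sum_sum_type]
    have h5 : ∀ k : κ, ψ (Function.update v (e (Sum.inl k)) (X (v (e (Sum.inl k))))) =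
        F (Function.update (fun k => v (e (Sum.inl k))) k (X (v (e (Sum.inl k))))) *
          F' (fun k => v (e (Sum.inr k))) := by
      intro k
      rw [hψ]
      congr 2
      · funext j
        by_cases hj : j = k
        · subst hj
          rw [Function.update_self, Function.update_self]
        · rw [Function.update_of_ne (fun h => hj (Sum.inl_injective (e.injective h))),
            Function.update_of_ne hj]
      · funext j
        rw [Function.update_of_ne (fun h => by simpa using e.injective h)]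
    have h6 : ∀ k : κ', ψ (Function.update v (e (Sum.inr k)) (X (v (e (Sum.inr k))))) =
        F (fun k => v (e (Sum.inl k))) *
          F' (Function.update (fun k => v (e (Sum.inr k))) k (X (v (e (Sum.inr k))))) := by
      intro k
      rw [hψ]
      congr 2
      · funext j
        rw [Function.update_of_ne (fun h => by simpa using e.injective h)]
      · funext j
        by_cases hj : j = k
        · subst hj
          rw [Function.update_self, Function.update_self]
        · rw [Function.update_of_ne (fun h => hj (Sum.inr_injective (e.injective h))),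
            Function.update_of_ne hj]
    rw [Finset.sum_congr rfl fun k _ => h5 k, Finset.sum_congr rfl fun k _ => h6 k,
      ← Finset.sum_mul, ← Finset.mul_sum, h3, h4]
    change (0 : ℂ) * _ + _ * 0 = 0
    ring

/-- The forms fixed by `X`. -/
def NGrp : ∀ (κ : Type) [Finite κ],
    Submodule ℂ (MultilinearMap ℂ (fun _ : κ => Fin G ⊕ Fin G → ℂ) ℂ) := fun κ _ =>
  { carrier := {F | ∀ v, F (fun k => X (v k)) = F v}
    add_mem' := fun hF hF' v => by
      rw [_root_.add_apply, _root_.add_apply, hF, hF']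
    zero_mem' := fun v => rfl
    smul_mem' := fun c F hF v => by
      rw [_root_.smul_apply, _root_.smul_apply, hF] }

theorem clo_NGrp : Clo (NGrp X) := by
  constructor
  · intro κ _ _ F v
    congr 1
    exact Subsingleton.elim _ _
  · intro κ κ' κ'' _ _ _ e F F' ψ hF hF' hψ v
    rw [hψ, hψ, hF, hF']

end sys

/-- **Elements of the Lie algebra.** -/
theorem lieMem : JLieMem := by
  intro G Z H X hX κ _ _ F hF
  obtain ⟨hc, hom, htr⟩ := hX
  have h := H.pm
  refine inv_memH H (NLie X) (clo_NLie X) ?_ ?_ F hF inferInstance inferInstance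
  · intro b hb i1 i2
    obtain rfl : i1 = Fin.fintype 2 := Subsingleton.elim _ _
    obtain rfl : i2 = instDecidableEqFin 2 := Subsingleton.elim _ _
    obtain ⟨S, hS, hSe⟩ := exists_S h b hb
    refine MultilinearMap.ext fun v => ?_
    rw [ac_apply, Fin.sum_univ_two]
    change b (X (v 0)) (v 1) + b (v 0) (X (v 1)) = 0
    rw [hS, hS, hc S hSe]
    exact hom _ _
  · intro U hU hsd ι i1 i2 f Q hQ i1' i2'
    obtain rfl : i1' = i1 := Subsingleton.elim _ _
    obtain rfl : i2' = i2 := Subsingleton.elim _ _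
    have hXU := com_stab h hc hU.2.1
    have h1 : ∀ y v, Q y (X v) = X.restrict hXU (Q y v) := by
      intro y v
      refine Subtype.ext ?_
      exact hc (U.subtype.comp (Q y)) (fun Y hY v => hQ y Y hY v) v
    refine MultilinearMap.ext fun v => ?_
    rw [ac_apply]
    have h2 : ∀ k, (f.det.toMultilinearMap.compLinearMap Q) (Function.update v k (X (v k))) =
        f.det (Function.update (fun y => Q y (v y)) k (X.restrict hXU (Q k (v k)))) := by
      intro k
      change f.det (fun y => Q y (Function.update v k (X (v k)) y)) = _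
      congr 1
      funext y
      by_cases hy : y = k
      · subst hy
        rw [Function.update_self, Function.update_self, h1]
      · rw [Function.update_of_ne hy, Function.update_of_ne hy]
    rw [Finset.sum_congr rfl fun k _ => h2 k, sum_det_update f (X.restrict hXU),
      htr U hU hsd hXU, zero_mul]
    rfl

/-- **Elements of the group.** -/
theorem grpMem : JGrpMem := by
  intro G Z H g hg κ _ _ F hF
  obtain ⟨hc, hom, hdt⟩ := hg
  have h := H.pm
  refine MultilinearMap.ext fun v => ?_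
  refine inv_memH H (NGrp g) (clo_NGrp g) ?_ ?_ F hF v
  · intro b hb v
    obtain ⟨S, hS, hSe⟩ := exists_S h b hb
    change b (g (v 0)) (g (v 1)) = b (v 0) (v 1)
    rw [hS, hS, hc S hSe]
    exact hom _ _
  · intro U hU hsd ι i1 i2 f Q hQ v
    have hXU := com_stab h hc hU.2.1
    have h1 : ∀ y v, Q y (g v) = g.restrict hXU (Q y v) := by
      intro y v
      refine Subtype.ext ?_
      exact hc (U.subtype.comp (Q y)) (fun Y hY v => hQ y Y hY v) v
    change f.det (fun y => Q y (g (v y))) = f.det (fun y => Q y (v y))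
    have h2 : (fun y => Q y (g (v y))) = (g.restrict hXU) ∘ fun y => Q y (v y) := by
      funext y
      exact h1 y (v y)
    rw [h2, Basis.det_comp, hdt U hU hsd hXU, one_mul]

end

end Pool.Agent.Y153.GV
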